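import Pool.Agent.Helper42.SLR.Defs

/-!
# Project SL, module RB: packet NZ
-/

namespace Pool.Agent.Helper70.SLR

open Module Pool.Agent.Helper42.SLR

universe v x

/-- Scaling a vector into the unit polydisc. -/
theorem exists_scale {k : Type v} [NormedField k] {g : ℕ} (u : Fin g → k) :
    ∃ c : k, c ≠ 0 ∧ ∀ i, ‖c⁻¹ * u i‖ ≤ 1 := by
  by_cases hu : u = 0
  · refine ⟨1, one_ne_zero, fun i ↦ ?_⟩
    simp [hu]
  · obtain ⟨j, hj⟩ := Function.ne_iff.mp hu
    have : Nonempty (Fin g) := ⟨j⟩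
    obtain ⟨i0, hi0⟩ := Finite.exists_max (fun i ↦ ‖u i‖)
    have h0 : 0 < ‖u i0‖ := lt_of_lt_of_le (norm_pos_iff.mpr hj) (hi0 j)
    refine ⟨u i0, norm_pos_iff.mp h0, fun i ↦ ?_⟩
    rw [norm_mul, norm_inv, inv_mul_le_iff₀ h0, mul_one]
    exact hi0 i

theorem nz : S_NZ.{v, x} := by
  intro k _ g N M _ G h
  obtain ⟨t, rfl⟩ := Nat.exists_eq_add_of_le h
  set W : Submodule k (Fin g → k) := Submodule.span k (Set.range G) with hW
  let b : Basis (Fin (finrank k W)) k W := finBasis k W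
  choose c hc0 hc using fun i ↦ exists_scale ((b i : W) : Fin g → k)
  have hG : ∀ m, G m ∈ W := fun m ↦ Submodule.subset_span ⟨m, rfl⟩
  refine ⟨fun n ↦ Fin.addCases (fun i ↦ (fun q ↦ (c i)⁻¹ * ((b i : W) : Fin g → k) q))
      (fun _ ↦ 0) n, fun m n ↦ Fin.addCases (fun i ↦ b.repr ⟨G m, hG m⟩ i * c i)
      (fun _ ↦ 0) n, ?_, ?_⟩
  · intro n q
    refine Fin.addCases (fun i ↦ ?_) (fun i ↦ ?_) n
    · simp only [Fin.addCases_left]
      exact hc i q
    · simp only [Fin.addCases_right]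
      simp
  · intro m q
    rw [Fin.sum_univ_add]
    simp only [Fin.addCases_left, Fin.addCases_right, zero_mul, Finset.sum_const_zero, add_zero]
    have h1 := congrArg (fun w : W ↦ (w : Fin g → k) q) (b.sum_repr ⟨G m, hG m⟩)
    simp only [Submodule.coe_sum, Submodule.coe_smul, Finset.sum_apply, Pi.smul_apply,
      smul_eq_mul] at h1
    rw [← h1]
    refine Finset.sum_congr rfl fun i _ ↦ ?_
    rw [mul_assoc, mul_inv_cancel_left₀ (hc0 i)]

end Pool.Agent.Helper70.SLR
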